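import Pool.Agent.H41.LX.Defs

/-!
# Skolem functions for `L_{∞∞}` formulas in vocabularies of infinite arity
-/

set_option autoImplicit false

namespace Pool.Agent.H41.LX

open Pool.Agent.H47.LInf Cardinal

universe u

variable {σ : Voc.{u}}

/-- a bound for the sizes of the quantifier blocks -/
noncomputable def Fm.bd : {V : Type u} → Fm σ V → Cardinal.{u}
  | _, .eq _ _ => 0
  | _, .rel _ _ => 0
  | _, .not φ => φ.bd
  | _, .conj _ φ => ⨆ i, (φ i).bd
  | _, .disj _ φ => ⨆ i, (φ i).bd
  | _, .all W φ => max #W φ.bd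
  | _, .ex W φ => max #W φ.bd

/-- the restriction of the interpretations to a closed sublattice -/
def Str.restr {L : Type u} [Lattice L] (M : Str σ L) (X : Sublattice L)
    (hX : ∀ f (a : σ.fa f → L), (∀ i, a i ∈ X) → M.op f a ∈ X) : Str σ X where
  op f a := ⟨M.op f fun i => (a i : L), hX f _ fun i => (a i).2⟩
  rel r a := M.rel r fun i => (a i : L)

lemma Tm.eval_restr {L : Type u} [Lattice L] (M : Str σ L) (X : Sublattice L)
    (hX : ∀ f (a : σ.fa f → L), (∀ i, a i ∈ X) → M.op f a ∈ X) {V : Type u} (v : V → X)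
    (t : Tm σ V) : ((t.eval (M.restr X hX) v : X) : L) = t.eval M fun x => (v x : L) := by
  induction t with
  | var x => rfl
  | sup s t hs ht =>
    simp only [Tm.eval]
    rw [← hs, ← ht]
    rfl
  | inf s t hs ht =>
    simp only [Tm.eval]
    rw [← hs, ← ht]
    rfl
  | op f a ih =>
    simp only [Tm.eval]
    show M.op f (fun i => (((a i).eval (M.restr X hX) v : X) : L)) = _
    congr 1
    funext i
    exact ih i

/-- closedness under a family of operations -/
def Closed {L : Type u} {J : Type u} {A : J → Type u} (F : (j : J) → (A j → L) → L) (X : Set L) :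
    Prop := ∀ j (a : A j → L), (∀ i, a i ∈ X) → F j a ∈ X

theorem skolem {κ : Cardinal.{u}} (hκ : ℵ₀ ≤ κ) {V : Type u} (φ : Fm σ V) : φ.bd ≤ κ → #V ≤ κ →
    ∃ (J : Type u) (A : J → Type u), (∀ j, #(A j) ≤ κ) ∧
      ∀ (L : Type u) [Lattice L] [Nonempty L] (M : Str σ L), ∃ F : (j : J) → (A j → L) → L,
        ∀ (X : Sublattice L) (hX : ∀ f (a : σ.fa f → L), (∀ i, a i ∈ X) → M.op f a ∈ X),
          Closed F (X : Set L) → ∀ v : V → X,
            (φ.Sat X (M.restr X hX) v ↔ φ.Sat L M fun x => (v x : L)) := by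
  classical
  induction φ with
  | eq s t =>
    intro _ _
    refine ⟨PEmpty, fun _ => PEmpty, fun j => j.elim, fun L _ _ M => ⟨fun j => j.elim,
      fun X hX _ v => ?_⟩⟩
    simp only [Fm.Sat]
    rw [← Tm.eval_restr M X hX, ← Tm.eval_restr M X hX]
    exact Subtype.ext_iff
  | rel r a =>
    intro _ _
    refine ⟨PEmpty, fun _ => PEmpty, fun j => j.elim, fun L _ _ M => ⟨fun j => j.elim,
      fun X hX _ v => ?_⟩⟩
    simp only [Fm.Sat]
    have : (fun i => (a i).eval M fun x => ((v x : X) : L)) =
        fun i => (((a i).eval (M.restr X hX) v : X) : L) := by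
      funext i
      rw [Tm.eval_restr M X hX]
    rw [this]
    exact Iff.rfl
  | not φ ih =>
    intro hb hV
    obtain ⟨J, A, hA, h⟩ := ih hb hV
    refine ⟨J, A, hA, fun L _ _ M => ?_⟩
    obtain ⟨F, hF⟩ := h L M
    exact ⟨F, fun X hX hc v => not_congr (hF X hX hc v)⟩
  | conj ι φ ih =>
    intro hb hV
    have hb' : ∀ i, (φ i).bd ≤ κ := fun i =>
      (le_ciSup (f := fun i => (φ i).bd) (Cardinal.bddAbove_of_small) i).trans hb
    choose J A hA h using fun i => ih i (hb' i) hV
    refine ⟨Σ i, J i, fun j => A j.1 j.2, fun j => hA j.1 j.2, fun L _ _ M => ?_⟩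
    choose F hF using fun i => h i L M
    refine ⟨fun j => F j.1 j.2, fun X hX hc v => forall_congr' fun i => hF i X hX ?_ v⟩
    intro j a ha
    exact hc ⟨i, j⟩ a ha
  | disj ι φ ih =>
    intro hb hV
    have hb' : ∀ i, (φ i).bd ≤ κ := fun i =>
      (le_ciSup (f := fun i => (φ i).bd) (Cardinal.bddAbove_of_small) i).trans hb
    choose J A hA h using fun i => ih i (hb' i) hV
    refine ⟨Σ i, J i, fun j => A j.1 j.2, fun j => hA j.1 j.2, fun L _ _ M => ?_⟩
    choose F hF using fun i => h i L M
    refine ⟨fun j => F j.1 j.2, fun X hX hc v => exists_congr fun i => hF i X hX ?_ v⟩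
    intro j a ha
    exact hc ⟨i, j⟩ a ha
  | @all V W φ ih =>
    intro hb hV
    have hW : #W ≤ κ := (le_max_left _ _).trans hb
    have hφ : φ.bd ≤ κ := (le_max_right _ _).trans hb
    have hVW : #(V ⊕ W) ≤ κ := by
      rw [mk_sum, lift_id, lift_id]
      exact (add_le_add hV hW).trans (add_eq_self hκ).le
    obtain ⟨J, A, hA, h⟩ := ih hφ hVW
    refine ⟨J ⊕ W, Sum.elim A fun _ => V, ?_, fun L _ _ M => ?_⟩
    · rintro (j | w)
      · exact hA j
      · exact hV
    obtain ⟨F, hF⟩ := h L M
    let wit : (V → L) → W → L := fun v =>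
      if hw : ∃ w : W → L, ¬ φ.Sat L M (Sum.elim v w) then hw.choose else fun _ => Classical.arbitrary L
    have hwit : ∀ v, (∃ w : W → L, ¬ φ.Sat L M (Sum.elim v w)) →
        ¬ φ.Sat L M (Sum.elim v (wit v)) := by
      intro v hw
      simp only [wit, dif_pos hw]
      exact hw.choose_spec
    refine ⟨fun j => match j with
      | .inl j => F j
      | .inr w => fun v => wit v w, fun X hX hc v => ?_⟩
    have hcF : Closed F (X : Set L) := fun j a ha => hc (Sum.inl j) a ha
    have hcw : ∀ (v : V → L), (∀ x, v x ∈ X) → ∀ w, wit v w ∈ X := fun v hv w =>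
      hc (Sum.inr w) v hv
    have key : ∀ w : W → X, (φ.Sat X (M.restr X hX) (Sum.elim v w) ↔
        φ.Sat L M (Sum.elim (fun x => (v x : L)) fun x => (w x : L))) := by
      intro w
      rw [hF X hX hcF (Sum.elim v w)]
      have : (fun x => ((Sum.elim v w x : X) : L)) =
          Sum.elim (fun x => (v x : L)) fun x => (w x : L) := by
        funext x
        rcases x with x | x <;> rfl
      rw [this]
    simp only [Fm.Sat]
    constructor
    · intro hs
      by_contra hcon
      push Not at hcon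
      have h1 := hwit _ hcon
      have h2 := hcw (fun x => (v x : L)) (fun x => (v x).2)
      exact h1 ((key fun w => ⟨_, h2 w⟩).1 (hs _))
    · intro hs w
      exact (key w).2 (hs _)
  | @ex V W φ ih =>
    intro hb hV
    have hW : #W ≤ κ := (le_max_left _ _).trans hb
    have hφ : φ.bd ≤ κ := (le_max_right _ _).trans hb
    have hVW : #(V ⊕ W) ≤ κ := by
      rw [mk_sum, lift_id, lift_id]
      exact (add_le_add hV hW).trans (add_eq_self hκ).le
    obtain ⟨J, A, hA, h⟩ := ih hφ hVW
    refine ⟨J ⊕ W, Sum.elim A fun _ => V, ?_, fun L _ _ M => ?_⟩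
    · rintro (j | w)
      · exact hA j
      · exact hV
    obtain ⟨F, hF⟩ := h L M
    let wit : (V → L) → W → L := fun v =>
      if hw : ∃ w : W → L, φ.Sat L M (Sum.elim v w) then hw.choose else fun _ => Classical.arbitrary L
    have hwit : ∀ v, (∃ w : W → L, φ.Sat L M (Sum.elim v w)) →
        φ.Sat L M (Sum.elim v (wit v)) := by
      intro v hw
      simp only [wit, dif_pos hw]
      exact hw.choose_spec
    refine ⟨fun j => match j with
      | .inl j => F j
      | .inr w => fun v => wit v w, fun X hX hc v => ?_⟩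
    have hcF : Closed F (X : Set L) := fun j a ha => hc (Sum.inl j) a ha
    have hcw : ∀ (v : V → L), (∀ x, v x ∈ X) → ∀ w, wit v w ∈ X := fun v hv w =>
      hc (Sum.inr w) v hv
    have key : ∀ w : W → X, (φ.Sat X (M.restr X hX) (Sum.elim v w) ↔
        φ.Sat L M (Sum.elim (fun x => (v x : L)) fun x => (w x : L))) := by
      intro w
      rw [hF X hX hcF (Sum.elim v w)]
      have : (fun x => ((Sum.elim v w x : X) : L)) =
          Sum.elim (fun x => (v x : L)) fun x => (w x : L) := by
        funext x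
        rcases x with x | x <;> rfl
      rw [this]
    simp only [Fm.Sat]
    constructor
    · rintro ⟨w, hs⟩
      exact ⟨_, (key w).1 hs⟩
    · intro hs
      have h1 := hwit _ hs
      have h2 := hcw (fun x => (v x : L)) (fun x => (v x).2)
      exact ⟨fun w => ⟨_, h2 w⟩, (key fun w => ⟨_, h2 w⟩).2 h1⟩

end Pool.Agent.H41.LX
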