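import Pool.Agent.H47.LInf.Equiv
import Pool.Agent.H47.LInf.Untwist
import Pool.Agent.H47.LInf.NonRep
import Pool.Agent.H41.LX.LS

/-!
# Long chains of small partial bijections: isomorphic sublattices of `Γ(P)` and `Γ(P')` which are closed
under given families of operations
-/

set_option autoImplicit false

namespace Pool.Agent.H41.LX

open Pool.Agent.H47.LInf Cardinal Order

universe u

variable {P P' : Type u} {κ μ : Cardinal.{u}} {hμ : ℵ₀ ≤ μ} {h : ℕ ≃ ℕ}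

lemma rel_mono {E E' : Set (P × P')} (hEE' : E ⊆ E') (hE' : PB μ E') {d : Gam h μ hμ P}
    {d' : Gam h μ hμ P'} (hR : Rel E d d') : Rel E' d d' := by
  refine hR.extend hEE' fun p p' h1 h2 => ⟨?_, ?_⟩
  · rintro ⟨p'', h3⟩
    have := hE'.1 _ _ _ h1 (hEE' h3)
    subst this
    exact h2 h3
  · rintro ⟨p'', h3⟩
    have := hE'.2.1 _ _ _ h1 (hEE' h3)
    subst this
    exact h2 h3

/-- an element supported by the domain has a related partner -/
theorem exists_rel (hP : μ < #P) {E' : Set (P × P')} (hE' : PB μ E') (d : Gam h μ hμ P)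
    {S : Set P} (hS : Supp h μ d.1 S) (hST : S ⊆ dom E') : ∃ d' : Gam h μ hμ P', Rel E' d d' := by
  classical
  obtain ⟨q0, hq0⟩ := exists_notMem (dom_card hE') hP
  set π : P' → P := fun p' => if hh : ∃ p, (p, p') ∈ E' then hh.choose else q0 with hπ
  have hπ1 : ∀ p p', (p, p') ∈ E' → π p' = p := by
    intro p p' hp
    have hh : ∃ p, (p, p') ∈ E' := ⟨p, hp⟩
    simp only [hπ, hh, dif_pos]
    exact hE'.2.1 _ _ _ hh.choose_spec hp
  have hπ2 : ∀ p', p' ∉ ran E' → π p' = q0 := by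
    intro p' hp'
    have hh : ¬ ∃ p, (p, p') ∈ E' := hp'
    simp only [hπ, hh, dif_neg, not_false_eq_true]
  obtain ⟨-, hs1, c, hc, hs2⟩ := hS
  have hq0S : q0 ∉ S := fun h => hq0 (hST h)
  have hmem : (fun p' q' => d.1 (π p') (π q')) ∈ Gam h μ hμ P' := by
    refine ⟨fun p' q' => d.2.1 _ _, ?_, ran E', ran_card hE', ?_, c, hc, ?_⟩
    · refine d.2.2.1.subset ?_
      rintro _ ⟨pq, rfl⟩
      exact ⟨(π pq.1, π pq.2), rfl⟩
    · intro p'
      obtain ⟨x, hx⟩ := hs1 (π p')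
      refine ⟨x, fun q' hq' => ?_⟩
      simp only
      rw [hπ2 q' hq']
      exact hx q0 hq0S
    · intro p' hp' q' hq'
      simp only
      rw [hπ2 p' hp', hπ2 q' hq']
      exact hs2 q0 hq0S q0 hq0S
  refine ⟨⟨_, hmem⟩, ?_⟩
  refine ⟨fun p p' q q' hp hq => ?_, fun p p' hp => ?_, c, hc, fun p hp q hq => ?_, fun p hp q hq => ?_⟩
  · show d.1 (π p') (π q') = d.1 p q
    rw [hπ1 p p' hp, hπ1 q q' hq]
  · obtain ⟨x, hx⟩ := hs1 p
    refine ⟨x, fun q hq => hx q (fun h => hq (hST h)), fun q' hq' => ?_⟩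
    show d.1 (π p') (π q') = x ∧ d.1 (π q') (π p') = hs h x
    rw [hπ1 p p' hp, hπ2 q' hq']
    exact hx q0 hq0S
  · exact hs2 p (fun h => hp (hST h)) q (fun h => hq (hST h))
  · show d.1 (π p) (π q) = c
    rw [hπ2 p hp, hπ2 q hq]
    exact hs2 q0 hq0S q0 hq0S

/-- the forth property, with an extension of the partial bijection -/
theorem forth' (hP : μ < #P) (hP' : μ < #P') {E : Set (P × P')} (hE : PB μ E) (W : Type u)
    (hW : #W ≤ μ) (w : W → Gam h μ hμ P) :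
    ∃ E' : Set (P × P'), PB μ E' ∧ E ⊆ E' ∧
      ∃ w' : W → Gam h μ hμ P', ∀ i, Rel E' (w i) (w' i) := by
  choose S hS using fun i => (w i).2.2.2
  have hTk : #(⋃ i, S i : Set P) ≤ μ := by
    refine (mk_iUnion_le _).trans ?_
    calc #W * ⨆ i, #(S i) ≤ μ * μ := by
          gcongr
          exact ciSup_le' fun i => (hS i).1
      _ = μ := mul_eq_self hμ
  obtain ⟨E', hE', hEE', hdom, -⟩ := exists_extension hμ hP' hE _ hTk
  have hST : ∀ i, S i ⊆ dom E' := fun i p hp => by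
    rw [hdom]; exact Or.inr (Set.mem_iUnion.2 ⟨i, hp⟩)
  choose w' hw' using fun i => exists_rel hP hE' (w i) (hS i) (hST i)
  exact ⟨E', hE', hEE', w', hw'⟩

/-- states: a partial bijection and a set of related pairs -/
abbrev St (h : ℕ ≃ ℕ) (μ : Cardinal.{u}) (hμ : ℵ₀ ≤ μ) (P P' : Type u) : Type u :=
  Set (P × P') × Set (Gam h μ hμ P × Gam h μ hμ P')

/-- admissible states -/
def Good (x : St h μ hμ P P') : Prop :=
  PB μ x.1 ∧ #x.2 ≤ μ ∧ ∀ z ∈ x.2, Rel x.1 z.1 z.2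

lemma good_iSup {ι : Type u} (hι : #ι ≤ μ) (x : ι → St h μ hμ P P') (hx : ∀ i, Good (x i))
    (hdir : ∀ i j, x i ≤ x j ∨ x j ≤ x i) : Good (⨆ i, x i) := by
  have e1 : (⨆ i, x i).1 = ⋃ i, (x i).1 := Prod.fst_iSup x
  have e2 : (⨆ i, x i).2 = ⋃ i, (x i).2 := Prod.snd_iSup x
  have hcard : ∀ {α : Type u} (f : ι → Set α), (∀ i, #(f i) ≤ μ) → #(⋃ i, f i : Set α) ≤ μ := by
    intro α f hf
    refine (mk_iUnion_le _).trans ?_
    calc #ι * ⨆ i, #(f i) ≤ μ * μ := by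
          gcongr
          exact ciSup_le' hf
      _ = μ := mul_eq_self hμ
  have hPB : PB μ (⨆ i, x i).1 := by
    rw [e1]
    refine ⟨fun p p' p'' h1 h2 => ?_, fun p q p' h1 h2 => ?_, hcard _ fun i => (hx i).1.2.2⟩
    · obtain ⟨i, hi⟩ := Set.mem_iUnion.1 h1
      obtain ⟨j, hj⟩ := Set.mem_iUnion.1 h2
      rcases hdir i j with hij | hij
      · exact (hx j).1.1 _ _ _ (hij.1 hi) hj
      · exact (hx i).1.1 _ _ _ hi (hij.1 hj)
    · obtain ⟨i, hi⟩ := Set.mem_iUnion.1 h1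
      obtain ⟨j, hj⟩ := Set.mem_iUnion.1 h2
      rcases hdir i j with hij | hij
      · exact (hx j).1.2.1 _ _ _ (hij.1 hi) hj
      · exact (hx i).1.2.1 _ _ _ hi (hij.1 hj)
  refine ⟨hPB, ?_, fun z hz => ?_⟩
  · rw [e2]
    exact hcard _ fun i => (hx i).2.1
  · rw [e2] at hz
    obtain ⟨i, hi⟩ := Set.mem_iUnion.1 hz
    refine rel_mono ?_ hPB ((hx i).2.2 z hi)
    rw [e1]
    exact Set.subset_iUnion (fun i => (x i).1) i

section
variable {J₁ J₂ : Type u} {A₁ : J₁ → Type u} {A₂ : J₂ → Type u}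
  (F₁ : (j : J₁) → (A₁ j → Gam h μ hμ P) → Gam h μ hμ P)
  (F₂ : (j : J₂) → (A₂ j → Gam h μ hμ P') → Gam h μ hμ P')

lemma card_sigma_le (hμ : ℵ₀ ≤ μ) (hpow : μ ^ κ = μ) {J : Type u} {A : J → Type u} (hJ : #J ≤ μ) (hA : ∀ j, #(A j) ≤ κ)
    {Z : Type u} (hZ : #Z ≤ μ) : #(Σ j, (A j → Z)) ≤ μ := by
  rw [mk_sigma]
  calc Cardinal.sum (fun j => #(A j → Z)) ≤ Cardinal.sum (fun _ : J => μ) := by
        refine sum_le_sum _ _ fun j => ?_
        rw [← power_def]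
        calc #Z ^ #(A j) ≤ μ ^ #(A j) := power_le_power_right hZ
          _ ≤ μ ^ κ := power_le_power_left (aleph0_pos.trans_le hμ).ne' (hA j)
          _ = μ := hpow
    _ = #J * μ := by rw [sum_const, lift_id, lift_id]
    _ ≤ μ * μ := by gcongr
    _ = μ := mul_eq_self hμ

include F₁ F₂ in
/-- one step of the construction -/
lemma step (hP : μ < #P) (hP' : μ < #P') (hpow : μ ^ κ = μ) (hJ₁ : #J₁ ≤ μ) (hJ₂ : #J₂ ≤ μ)
    (hA₁ : ∀ j, #(A₁ j) ≤ κ) (hA₂ : ∀ j, #(A₂ j) ≤ κ) (x : St h μ hμ P P') (hx : Good x) :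
    ∃ y : St h μ hμ P P', Good y ∧ x ≤ y ∧ y.2.Nonempty ∧
      (∀ j (a : A₁ j → x.2), ∃ z ∈ y.2, z.1 = F₁ j fun i => (a i).1.1) ∧
      (∀ j (a : A₂ j → x.2), ∃ z ∈ y.2, z.2 = F₂ j fun i => (a i).1.2) := by
  obtain ⟨E, Z⟩ := x
  obtain ⟨hE, hZ, hR⟩ := hx
  simp only at hE hZ hR
  have hopt : ∀ {α : Type u}, #α ≤ μ → #(Option α) ≤ μ := by
    intro α hα
    rw [mk_option]
    exact (add_le_add hα (one_le_aleph0.trans hμ)).trans (add_eq_self hμ).le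
  have hW₁ : #(Option (Σ j, (A₁ j → Z))) ≤ μ := hopt (card_sigma_le hμ hpow hJ₁ hA₁ hZ)
  have hW₂ : #(Option (Σ j, (A₂ j → Z))) ≤ μ := hopt (card_sigma_le hμ hpow hJ₂ hA₂ hZ)
  have hbot : (⊥ : P → P → Pt) ∈ Gam h μ hμ P := bot_mem
  have hbot' : (⊥ : P' → P' → Pt) ∈ Gam h μ hμ P' := bot_mem
  let w₁ : Option (Σ j, (A₁ j → Z)) → Gam h μ hμ P := fun o => match o with
    | none => ⟨⊥, hbot⟩
    | some a => F₁ a.1 fun i => (a.2 i).1.1
  let w₂ : Option (Σ j, (A₂ j → Z)) → Gam h μ hμ P' := fun o => match o with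
    | none => ⟨⊥, hbot'⟩
    | some a => F₂ a.1 fun i => (a.2 i).1.2
  obtain ⟨E₁, hE₁, hEE₁, w₁', hw₁⟩ := forth' hP hP' hE _ hW₁ w₁
  obtain ⟨E₂, hE₂, hEE₂, w₂', hw₂⟩ := forth' (P := P') (P' := P) hP' hP hE₁.inv _ hW₂ w₂
  have hE₃ : PB μ (inv E₂) := hE₂.inv
  have hE₁₃ : E₁ ⊆ inv E₂ := fun z hz => hEE₂ (show (z.2, z.1) ∈ inv E₁ from hz)
  refine ⟨(inv E₂, Z ∪ Set.range (fun i => (w₁ i, w₁' i)) ∪ Set.range fun i => (w₂' i, w₂ i)),
    ⟨hE₃, ?_, ?_⟩, ⟨hEE₁.trans hE₁₃, ?_⟩, ?_, ?_, ?_⟩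
  · apply mk_union_le_of hμ
    · exact mk_union_le_of hμ hZ (mk_range_le.trans hW₁)
    · exact mk_range_le.trans hW₂
  · rintro z ((hz | ⟨i, rfl⟩) | ⟨i, rfl⟩)
    · exact rel_mono (hEE₁.trans hE₁₃) hE₃ (hR z hz)
    · exact rel_mono hE₁₃ hE₃ (hw₁ i)
    · exact (hw₂ i).symm
  · exact fun z hz => Or.inl (Or.inl hz)
  · exact ⟨_, Or.inl (Or.inr ⟨none, rfl⟩)⟩
  · intro j a
    exact ⟨_, Or.inl (Or.inr ⟨some ⟨j, a⟩, rfl⟩), rfl⟩
  · intro j a
    exact ⟨_, Or.inr ⟨some ⟨j, a⟩, rfl⟩, rfl⟩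

/-- transfinite iteration -/
noncomputable def chain {S I : Type u} [CompleteLattice S] [LinearOrder I] [WellFoundedLT I]
    (stp : S → S) : I → S :=
  (wellFounded_lt (α := I)).fix fun i f => stp (⨆ j : Set.Iio i, f j.1 j.2)

lemma chain_eq {S I : Type u} [CompleteLattice S] [LinearOrder I] [WellFoundedLT I]
    (stp : S → S) (i : I) : chain stp i = stp (⨆ j : Set.Iio i, chain stp j.1) := by
  unfold chain
  rw [WellFounded.fix_eq]

include F₁ F₂ in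
theorem exists_closed (hP : μ < #P) (hP' : μ < #P') (hκ : ℵ₀ ≤ κ) (hpow : μ ^ κ = μ)
    (hJ₁ : #J₁ ≤ μ) (hJ₂ : #J₂ ≤ μ) (hA₁ : ∀ j, #(A₁ j) ≤ κ) (hA₂ : ∀ j, #(A₂ j) ≤ κ) :
    ∃ (E : Set (P × P')) (Z : Set (Gam h μ hμ P × Gam h μ hμ P')), PB μ E ∧ Z.Nonempty ∧
      (∀ z ∈ Z, Rel E z.1 z.2) ∧ Closed F₁ {d | ∃ d', (d, d') ∈ Z} ∧
      Closed F₂ {d' | ∃ d, (d, d') ∈ Z} := by
  classical
  have hκμ : κ < μ := by
    calc κ < 2 ^ κ := cantor κ
      _ ≤ μ ^ κ := power_le_power_right ((natCast_le_aleph0 (n := 2)).trans hμ)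
      _ = μ := hpow
  -- the step function
  let stp : St h μ hμ P P' → St h μ hμ P P' := fun x => if hx : Good x then
    (step F₁ F₂ hP hP' hpow hJ₁ hJ₂ hA₁ hA₂ x hx).choose else x
  have hstp : ∀ x, Good x → Good (stp x) ∧ x ≤ stp x ∧ (stp x).2.Nonempty ∧
      (∀ j (a : A₁ j → x.2), ∃ z ∈ (stp x).2, z.1 = F₁ j fun i => (a i).1.1) ∧
      (∀ j (a : A₂ j → x.2), ∃ z ∈ (stp x).2, z.2 = F₂ j fun i => (a i).1.2) := by
    intro x hx
    simp only [stp, dif_pos hx]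
    exact (step F₁ F₂ hP hP' hpow hJ₁ hJ₂ hA₁ hA₂ x hx).choose_spec
  -- the index set
  set I : Type u := (succ κ).ord.ToType with hI
  have hIcard : #I = succ κ := mk_ord_toType _
  have hIic : ∀ p : I, #(Set.Iic p) ≤ κ := by
    intro p
    have h1 : #(Set.Iio p) < #I := mk_Iio_lt p (by rw [hIcard]; exact (Ordinal.type_toType _).symm)
    have h2 : #(Set.Iio p) ≤ κ := lt_succ_iff.1 (h1.trans_eq hIcard)
    have h3 : (Set.Iic p) = Set.Iio p ∪ {p} := by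
      ext q
      simp [le_iff_lt_or_eq]
    rw [h3]
    apply mk_union_le_of hκ h2
    exact ((Set.toFinite ({p} : Set I)).lt_aleph0.le).trans hκ
  have hIlt : κ < #I := by rw [hIcard]; exact lt_succ _
  have hIμ : #I ≤ μ := by rw [hIcard]; exact succ_le_of_lt hκμ
  let c : I → St h μ hμ P P' := chain stp
  have hc : ∀ i, c i = stp (⨆ j : Set.Iio i, c j.1) := fun i => chain_eq stp i
  have key : ∀ i, Good (c i) ∧ ∀ j < i, c j ≤ c i := by
    intro i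
    induction i using WellFoundedLT.induction with
    | ind i ih =>
      have hU : Good (⨆ j : Set.Iio i, c j.1) := by
        refine good_iSup ?_ _ (fun j => (ih j.1 j.2).1) fun j k => ?_
        · exact (mk_set_le _).trans hIμ
        · rcases lt_trichotomy j.1 k.1 with hjk | hjk | hjk
          · exact Or.inl ((ih k.1 k.2).2 j.1 hjk)
          · left
            rw [hjk]
          · exact Or.inr ((ih j.1 j.2).2 k.1 hjk)
      have h1 := hstp _ hU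
      rw [hc i]
      refine ⟨h1.1, fun j hj => ?_⟩
      exact (le_iSup (fun j : Set.Iio i => c j.1) ⟨j, hj⟩).trans h1.2.1
  have hgood : ∀ i, Good (⨆ j : Set.Iio i, c j.1) := by
    intro i
    refine good_iSup ((mk_set_le _).trans hIμ) _ (fun j => (key j.1).1) fun j k => ?_
    rcases lt_trichotomy j.1 k.1 with hjk | hjk | hjk
    · exact Or.inl ((key k.1).2 j.1 hjk)
    · left
      rw [hjk]
    · exact Or.inr ((key j.1).2 k.1 hjk)
  have htot : Good (⨆ i, c i) := by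
    refine good_iSup hIμ _ (fun j => (key j).1) fun j k => ?_
    rcases lt_trichotomy j k with hjk | hjk | hjk
    · exact Or.inl ((key k).2 j hjk)
    · left
      rw [hjk]
    · exact Or.inr ((key j).2 k hjk)
  have e2 : (⨆ i, c i).2 = ⋃ i, (c i).2 := Prod.snd_iSup c
  have hne : Nonempty I := by
    rw [← mk_ne_zero_iff, hIcard]
    exact (succ_pos κ).ne'
  -- elements of small families lie in one stage
  have hstage : ∀ {B : Type u}, #B ≤ κ → ∀ z : B → (Gam h μ hμ P × Gam h μ hμ P'),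
      (∀ b, z b ∈ (⨆ i, c i).2) → ∃ i, ∀ b, z b ∈ (⨆ j : Set.Iio i, c j.1).2 := by
    intro B hB z hz
    have h1 : ∀ b, ∃ i, z b ∈ (c i).2 := by
      intro b
      have h2 := hz b
      rw [e2] at h2
      exact Set.mem_iUnion.1 h2
    choose t ht using h1
    obtain ⟨α, hα⟩ := exists_bound hκ hIic hIlt (Set.range t) (mk_range_le.trans hB)
    obtain ⟨i, hi⟩ := exists_notMem (hIic α) hIlt
    have hi' : α < i := not_le.1 hi
    refine ⟨i, fun b => ?_⟩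
    have h3 : t b < i := lt_of_le_of_lt (hα ⟨b, rfl⟩) hi'
    exact (le_iSup (fun j : Set.Iio i => c j.1) ⟨t b, h3⟩).2 (ht b)
  refine ⟨(⨆ i, c i).1, (⨆ i, c i).2, htot.1, ?_, htot.2.2, ?_, ?_⟩
  · obtain ⟨i⟩ := hne
    have h1 := (hstp _ (hgood i)).2.2.1
    rw [← hc i] at h1
    rw [e2]
    exact h1.mono (Set.subset_iUnion (fun i => (c i).2) i)
  · intro j a ha
    choose d' hd' using ha
    obtain ⟨i, hi⟩ := hstage (hA₁ j) (fun b => (a b, d' b)) hd'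
    obtain ⟨z, hz, hz1⟩ := (hstp _ (hgood i)).2.2.2.1 j fun b => ⟨(a b, d' b), hi b⟩
    rw [← hc i] at hz
    refine ⟨z.2, ?_⟩
    rw [e2]
    refine Set.mem_iUnion.2 ⟨i, ?_⟩
    simp only at hz1
    rw [← hz1]
    exact hz
  · intro j a ha
    choose d hd using ha
    obtain ⟨i, hi⟩ := hstage (hA₂ j) (fun b => (d b, a b)) hd
    obtain ⟨z, hz, hz1⟩ := (hstp _ (hgood i)).2.2.2.2 j fun b => ⟨(d b, a b), hi b⟩
    rw [← hc i] at hz
    refine ⟨z.1, ?_⟩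
    rw [e2]
    refine Set.mem_iUnion.2 ⟨i, ?_⟩
    simp only at hz1
    rw [← hz1]
    exact hz

end

/-- the two sides are isomorphic -/
theorem iso_of_rel (hP : μ < #P) (hP' : μ < #P') {E : Set (P × P')} (hE : PB μ E)
    {Z : Set (Gam h μ hμ P × Gam h μ hμ P')} (hZ : ∀ z ∈ Z, Rel E z.1 z.2)
    (X : Sublattice (Gam h μ hμ P)) (X' : Sublattice (Gam h μ hμ P'))
    (hX : ∀ d, d ∈ X ↔ ∃ d', (d, d') ∈ Z) (hX' : ∀ d', d' ∈ X' ↔ ∃ d, (d, d') ∈ Z) :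
    Nonempty (X' ≃o X) := by
  choose f hf using fun d : X => (hX d).1 d.2
  have hmem : ∀ d : X, f d ∈ X' := fun d => (hX' _).2 ⟨d, hf d⟩
  have hle : ∀ a b : X, (⟨f a, hmem a⟩ : X') ≤ ⟨f b, hmem b⟩ ↔ a ≤ b := by
    intro a b
    have h1 := hZ _ (hf a)
    have h2 := hZ _ (hf b)
    have h3 := Rel.eq_iff hP hP' hE (h1.sup h2) h2
    simp only at h3
    rw [Subtype.mk_le_mk, ← sup_eq_right, ← h3, sup_eq_right]
    exact Iff.rfl
  have hsurj : Function.Surjective fun d : X => (⟨f d, hmem d⟩ : X') := by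
    rintro ⟨d', hd'⟩
    obtain ⟨d, hd⟩ := (hX' _).1 hd'
    have hdX : d ∈ X := (hX _).2 ⟨d', hd⟩
    refine ⟨⟨d, hdX⟩, ?_⟩
    apply Subtype.ext
    exact Rel.eq_imp hP hE (hZ _ (hf ⟨d, hdX⟩)) (hZ _ hd) rfl
  let g : X ↪o X' := OrderEmbedding.ofMapLEIff (fun d : X => (⟨f d, hmem d⟩ : X')) hle
  exact ⟨(RelIso.ofSurjective g hsurj).symm⟩

end Pool.Agent.H41.LX
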