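import Pool.Agent.H47.LInf.Defs
import Pool.Agent.H47.LInf.BackForth

/-!
# Projective classes of lattices, elementary maps, classes of lattices of ideals

Vocabularies have operation and relation symbols of arbitrary (possibly infinite) arities, the arities being types.
-/

set_option autoImplicit false

namespace Pool.Agent.H41.LX

open Pool.Agent.H47.LInf Cardinal

universe u v

/-- A vocabulary: operation symbols and relation symbols with arbitrary arities (index types). -/
structure Voc : Type (u + 1) where
  F : Type u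
  fa : F → Type u
  R : Type u
  ra : R → Type u

/-- Terms in the language of lattices with the additional operation symbols of `σ`. -/
inductive Tm (σ : Voc.{u}) (V : Type u) : Type u
  | var (x : V) : Tm σ V
  | sup (s t : Tm σ V) : Tm σ V
  | inf (s t : Tm σ V) : Tm σ V
  | op (f : σ.F) (a : σ.fa f → Tm σ V) : Tm σ V

/-- Interpretations of the symbols of `σ` on `L`. -/
structure Str (σ : Voc.{u}) (L : Type u) : Type u where
  op : (f : σ.F) → (σ.fa f → L) → L
  rel : (r : σ.R) → (σ.ra r → L) → Prop

/-- The value of a term. -/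
def Tm.eval {σ : Voc.{u}} {V L : Type u} [Lattice L] (M : Str σ L) (v : V → L) : Tm σ V → L
  | .var x => v x
  | .sup s t => s.eval M v ⊔ t.eval M v
  | .inf s t => s.eval M v ⊓ t.eval M v
  | .op f a => M.op f fun i => (a i).eval M v

/-- Formulas of `L_{∞∞}` in the language of lattices with the additional symbols of `σ`, with free
variables indexed by `V`. -/
inductive Fm (σ : Voc.{u}) : Type u → Type (u + 1)
  | eq {V : Type u} (s t : Tm σ V) : Fm σ V
  | rel {V : Type u} (r : σ.R) (a : σ.ra r → Tm σ V) : Fm σ V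
  | not {V : Type u} (φ : Fm σ V) : Fm σ V
  | conj {V : Type u} (ι : Type u) (φ : ι → Fm σ V) : Fm σ V
  | disj {V : Type u} (ι : Type u) (φ : ι → Fm σ V) : Fm σ V
  | all {V : Type u} (W : Type u) (φ : Fm σ (V ⊕ W)) : Fm σ V
  | ex {V : Type u} (W : Type u) (φ : Fm σ (V ⊕ W)) : Fm σ V

/-- Satisfaction of a formula in a lattice `L` with interpretations `M` under the assignment `v`. -/
def Fm.Sat {σ : Voc.{u}} (L : Type u) [Lattice L] (M : Str σ L) :
    {V : Type u} → Fm σ V → (V → L) → Prop
  | _, .eq s t, v => s.eval M v = t.eval M v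
  | _, .rel r a, v => M.rel r fun i => (a i).eval M v
  | _, .not φ, v => ¬ φ.Sat L M v
  | _, .conj _ φ, v => ∀ i, (φ i).Sat L M v
  | _, .disj _ φ, v => ∃ i, (φ i).Sat L M v
  | _, .all W φ, v => ∀ w : W → L, φ.Sat L M (Sum.elim v w)
  | _, .ex W φ, v => ∃ w : W → L, φ.Sat L M (Sum.elim v w)

/-- The lattice `L` is the reduct of a model of the sentence `ψ` in the larger vocabulary. -/
def IsReduct (L : Type u) [Lattice L] {σ : Voc.{u}} (ψ : Fm σ PEmpty.{u + 1}) : Prop :=
  ∃ M : Str σ L, ψ.Sat L M PEmpty.elim

/-- `f` preserves and reflects all formulas of `L_{∞∞}` in the language of lattices which have at most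
`κ` free variables and whose quantifier blocks have size at most `κ`. -/
def Elem (κ : Cardinal.{u}) {L L' : Type u} [Lattice L] [Lattice L'] (f : L → L') : Prop :=
  ∀ (V : Type u), #V ≤ κ → ∀ φ : Fml V, φ.bd ≤ κ → ∀ v : V → L, φ.Sat L v ↔ φ.Sat L' (f ∘ v)

/-- `L` is isomorphic to `Id_c G` for an Abelian `ℓ`-group `G` (with or without order-unit; `G` may
live in any universe). -/
def InAb (L : Type u) [Lattice L] : Prop :=
  ∃ (G : Type v) (_ : AddCommGroup G) (_ : Lattice G) (_ : IsOrderedAddMonoid G),
    Nonempty (L ≃o Idc G)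

/-- `L` is isomorphic to `Id_c V` for an Archimedean real vector lattice `V` with an order-unit. -/
def InRV (L : Type u) [Lattice L] : Prop :=
  ∃ (V : Type u) (_ : AddCommGroup V) (_ : Lattice V) (_ : IsOrderedAddMonoid V) (_ : Module ℝ V),
    (∀ (c : ℝ) (x : V), 0 ≤ c → 0 ≤ x → 0 ≤ c • x) ∧ IsArch V ∧ HasOrderUnit V ∧
      Nonempty (L ≃o Idc V)

end Pool.Agent.H41.LX
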