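import Pool.Agent.H41.LX.Chain

/-!
# Elementary embeddings between the twisted lattices
-/

set_option autoImplicit false

namespace Pool.Agent.H41.LX

open Pool.Agent.H47.LInf Cardinal Order

universe u

variable {P P' : Type u} {κ μ : Cardinal.{u}} {hμ : ℵ₀ ≤ μ} {h : ℕ ≃ ℕ}

/-- the graph of `ι` on `S` -/
def gr (ι : P → P') (S : Set P) : Set (P × P') := {z | z.1 ∈ S ∧ z.2 = ι z.1}

lemma gr_PB {ι : P → P'} (hι : Function.Injective ι) {S : Set P} (hS : #S ≤ μ) :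
    PB μ (gr ι S) := by
  refine ⟨fun p p' p'' h1 h2 => h1.2.trans h2.2.symm, fun p q p' h1 h2 => hι (h1.2.symm.trans h2.2), ?_⟩
  have : gr ι S = (fun p => (p, ι p)) '' S := by
    ext ⟨p, p'⟩
    constructor
    · rintro ⟨h1, h2⟩
      exact ⟨p, h1, Prod.ext rfl h2.symm⟩
    · rintro ⟨q, h1, h2⟩
      obtain rfl : q = p := congrArg Prod.fst h2
      exact ⟨h1, (congrArg Prod.snd h2).symm⟩
  rw [this]
  exact mk_image_le.trans hS

lemma dom_gr {ι : P → P'} {S : Set P} : S ⊆ dom (gr ι S) := fun p hp => ⟨ι p, hp, rfl⟩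

theorem exists_emb (hP : μ < #P) (hP' : μ < #P') {ι : P → P'} (hι : Function.Injective ι) :
    ∃ f : Gam h μ hμ P → Gam h μ hμ P', Elem μ f := by
  have h1 : ∀ d : Gam h μ hμ P, ∃ (S : Set P) (d' : Gam h μ hμ P'), #S ≤ μ ∧ Rel (gr ι S) d d' := by
    intro d
    obtain ⟨S, hS⟩ := d.2.2.2
    obtain ⟨d', hd'⟩ := exists_rel (P' := P') hP (gr_PB hι hS.1) d hS dom_gr
    exact ⟨S, d', hS.1, hd'⟩
  choose S f hS hf using h1
  refine ⟨f, fun V hV φ hφ v => ?_⟩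
  have hT : #(⋃ x, S (v x) : Set P) ≤ μ := by
    refine (mk_iUnion_le _).trans ?_
    calc #V * ⨆ x, #(S (v x)) ≤ μ * μ := by
          gcongr
          exact ciSup_le' fun x => hS (v x)
      _ = μ := mul_eq_self hμ
  have hE : PB μ (gr ι (⋃ x, S (v x))) := gr_PB hι hT
  refine backforth μ {R | ∃ E : Set (P × P'), PB μ E ∧ R = Pool.Agent.H47.LInf.Rel E} ?_ ?_ ?_ ?_ ?_ φ hφ
    (Pool.Agent.H47.LInf.Rel (gr ι (⋃ x, S (v x)))) ⟨_, hE, rfl⟩ _ _ fun x => ?_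
  · rintro R ⟨E, hE, rfl⟩ a b a' b' hR hR'
    exact hR.eq_iff hP hP' hE hR'
  · rintro R ⟨E, hE, rfl⟩ a b a' b' hR hR'
    exact hR.sup hR'
  · rintro R ⟨E, hE, rfl⟩ a b a' b' hR hR'
    exact hR.inf hR'
  · rintro R ⟨E, hE, rfl⟩ W hW w
    obtain ⟨E', hE', h1, w', hw'⟩ := forth hP hP' hE W hW w
    exact ⟨Pool.Agent.H47.LInf.Rel E', ⟨E', hE', rfl⟩, h1, w', hw'⟩
  · rintro R ⟨E, hE, rfl⟩ W hW w
    obtain ⟨E', hE', h1, w', hw'⟩ := forth (P := P') (P' := P) hP' hP hE.inv W hW w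
    refine ⟨Pool.Agent.H47.LInf.Rel (inv E'), ⟨inv E', hE'.inv, rfl⟩, fun d d' hR => ?_, w', fun i => (hw' i).symm⟩
    exact (h1 d' d hR.symm).symm
  · refine rel_mono ?_ hE (hf (v x))
    rintro z ⟨h2, h3⟩
    exact ⟨Set.mem_iUnion.2 ⟨x, h2⟩, h3⟩

lemma Elem.mono {L L' : Type u} [Lattice L] [Lattice L'] {f : L → L'} (hf : Elem μ f)
    (hκ : κ ≤ μ) : Elem κ f := fun V hV φ hφ v => hf V (hV.trans hκ) φ (hφ.trans hκ) v

/-- elementary maps are lattice embeddings -/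
lemma Elem.hom {L L' : Type u} [Lattice L] [Lattice L'] {f : L → L'} (hμ : ℵ₀ ≤ μ)
    (hf : Elem μ f) : Function.Injective f ∧ (∀ a b, f (a ⊔ b) = f a ⊔ f b) ∧
      ∀ a b, f (a ⊓ b) = f a ⊓ f b := by
  have hV : #(ULift.{u} (Fin 3)) ≤ μ := (mk_le_aleph0).trans hμ
  refine ⟨fun a b hab => ?_, fun a b => ?_, fun a b => ?_⟩
  · have h1 := hf _ hV (Fml.eq (Term.var ⟨0⟩) (Term.var ⟨1⟩)) zero_le
      fun i => if i.down = 0 then a else b
    have h2 : (Fml.eq (Term.var ⟨0⟩) (Term.var ⟨1⟩) : Fml (ULift.{u} (Fin 3))).Sat L'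
      (f ∘ fun i => if i.down = 0 then a else b) := by
      simp only [Fml.Sat, Term.eval, Function.comp_apply]
      exact hab
    have h3 := h1.2 h2
    simpa [Fml.Sat, Term.eval] using h3
  · have h1 := hf _ hV (Fml.eq (Term.sup (Term.var ⟨0⟩) (Term.var ⟨1⟩)) (Term.var ⟨2⟩)) zero_le
      fun i => if i.down = 0 then a else if i.down = 1 then b else a ⊔ b
    have h2 := h1.1 (by simp [Fml.Sat, Term.eval])
    simpa [Fml.Sat, Term.eval, eq_comm] using h2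
  · have h1 := hf _ hV (Fml.eq (Term.inf (Term.var ⟨0⟩) (Term.var ⟨1⟩)) (Term.var ⟨2⟩)) zero_le
      fun i => if i.down = 0 then a else if i.down = 1 then b else a ⊓ b
    have h2 := h1.1 (by simp [Fml.Sat, Term.eval])
    simpa [Fml.Sat, Term.eval, eq_comm] using h2

end Pool.Agent.H41.LX
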