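import Pool.Agent.H47.LInf.Final
import Pool.Agent.H41.LX.Defs

/-!
# The twisted lattices over large sets are not `Id_c G` for any Abelian `ℓ`-group `G`, in any universe
(after helper47, H47/LInf/NonRep and Final)
-/

set_option autoImplicit false
set_option linter.unusedSectionVars false

namespace Pool.Agent.H41.LX

open Cardinal Order Pool.Agent.H47.LInf

universe u v

section
variable {G : Type v} [AddCommGroup G] [Lattice G] [IsOrderedAddMonoid G]
  {P : Type u} {κ : Cardinal.{u}} {hκ : ℵ₀ ≤ κ} {h : ℕ ≃ ℕ}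

/-- a representation of `Γ` -/
structure RepOf (s : G → P → P → Pt) (κ : Cardinal.{u}) (hκ : ℵ₀ ≤ κ) (h : ℕ ≃ ℕ) (e : G) : Prop where
  mem : ∀ x, s x ∈ Gam h κ hκ P
  surj : ∀ d ∈ Gam h κ hκ P, ∃ x, s x = d
  le_iff : ∀ x y, s x ≤ s y ↔ ∃ n : ℕ, |x| ≤ n • |y|
  nonneg : 0 ≤ e
  unit : ∀ x : G, ∃ n : ℕ, x ≤ n • e

variable {s : G → P → P → Pt} {e : G}

lemma RepOf.zero (H : RepOf s κ hκ h e) : s 0 = ⊥ := by
  obtain ⟨z, hz⟩ := H.surj ⊥ bot_mem
  have : s 0 ≤ s z := (H.le_iff _ _).2 ⟨0, by simp⟩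
  rw [hz] at this
  exact le_bot_iff.1 this

lemma RepOf.top (H : RepOf s κ hκ h e) : s e = ⊤ := by
  obtain ⟨z, hz⟩ := H.surj ⊤ top_mem
  have : s z ≤ s e := by
    rw [H.le_iff]
    obtain ⟨n, hn⟩ := H.unit |z|
    exact ⟨n, by rwa [abs_of_nonneg H.nonneg]⟩
  rw [hz] at this
  exact top_le_iff.1 this

lemma RepOf.mono (H : RepOf s κ hκ h e) {x y : G} (hxy : |x| ≤ |y|) : s x ≤ s y :=
  (H.le_iff _ _).2 ⟨1, by simpa using hxy⟩

lemma RepOf.nsmul (H : RepOf s κ hκ h e) (n : ℕ) (x : G) : s (n • x) ≤ s x := by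
  rw [H.le_iff]
  refine ⟨n, ?_⟩
  rw [abs_le']
  constructor
  · exact nsmul_le_nsmul_right (le_abs_self x) n
  · rw [← smul_neg]
    exact nsmul_le_nsmul_right (neg_le_abs x) n

lemma RepOf.abs (H : RepOf s κ hκ h e) (x : G) : s |x| = s x := by
  apply le_antisymm
  · exact H.mono (by rw [abs_abs])
  · exact H.mono (by rw [abs_abs])

lemma RepOf.add (H : RepOf s κ hκ h e) (x y : G) : s (x + y) ≤ s x ⊔ s y := by
  obtain ⟨z, hz⟩ := H.surj _ ((Gam h κ hκ P).supClosed (H.mem x) (H.mem y))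
  have h1 : s x ≤ s z := by rw [hz]; exact le_sup_left
  have h2 : s y ≤ s z := by rw [hz]; exact le_sup_right
  obtain ⟨n, hn⟩ := (H.le_iff _ _).1 h1
  obtain ⟨m, hm⟩ := (H.le_iff _ _).1 h2
  rw [← hz, H.le_iff]
  refine ⟨n + m, ?_⟩
  rw [add_nsmul]
  exact (abs_add_le x y).trans (add_le_add hn hm)

lemma inf_nsmul_le {a b : G} (ha : 0 ≤ a) (hb : 0 ≤ b) (hab : a ⊓ b = 0) (n m : ℕ) :
    (n • a) ⊓ (m • b) = 0 := by
  have key : ∀ (a b : G), 0 ≤ a → 0 ≤ b → a ⊓ b = 0 → ∀ n : ℕ, (n • a) ⊓ b = 0 := by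
    intro a b ha hb hab n
    induction n with
    | zero => simpa using hb
    | succ n ih =>
      apply le_antisymm _ (le_inf (nsmul_nonneg ha _) hb)
      have h1 : ((n + 1) • a) ⊓ b ≤ (n • a) ⊓ b + a ⊓ b := by
        rw [succ_nsmul]
        rw [inf_add, add_inf, add_inf]
        refine le_inf (le_inf inf_le_left ?_) (le_inf ?_ ?_)
        · exact inf_le_right.trans (le_add_of_nonneg_left (nsmul_nonneg ha n))
        · exact inf_le_right.trans (le_add_of_nonneg_right ha)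
        · exact inf_le_right.trans (le_add_of_nonneg_left hb)
      rw [ih, hab, add_zero] at h1
      exact h1
  have h1 := key a b ha hb hab n
  have h2 := key b (n • a) hb (nsmul_nonneg ha n) (by rw [inf_comm]; exact h1) m
  rw [inf_comm]
  exact h2

lemma RepOf.disj (H : RepOf s κ hκ h e) {x y : G} (hx : 0 ≤ x) (hy : 0 ≤ y) (hxy : x ⊓ y = 0) :
    s x ⊓ s y = ⊥ := by
  obtain ⟨z, hz⟩ := H.surj _ ((Gam h κ hκ P).infClosed (H.mem x) (H.mem y))
  have h1 : s z ≤ s x := by rw [hz]; exact inf_le_left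
  have h2 : s z ≤ s y := by rw [hz]; exact inf_le_right
  obtain ⟨n, hn⟩ := (H.le_iff _ _).1 h1
  obtain ⟨m, hm⟩ := (H.le_iff _ _).1 h2
  rw [abs_of_nonneg hx] at hn
  rw [abs_of_nonneg hy] at hm
  have h3 : |z| ≤ 0 := by
    rw [← inf_nsmul_le hx hy hxy n m]
    exact le_inf hn hm
  have h4 : z = 0 := by
    apply le_antisymm
    · exact (le_abs_self z).trans h3
    · have := (neg_le_abs z).trans h3
      exact neg_nonpos.1 this
  rw [← hz, h4, H.zero]

/-- maximality -/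
lemma RepOf.max (H : RepOf s κ hκ h e) (p q : P) (k : ℕ) (x : G) (hx : k ∈ (s x p q).1) :
    ∃ n : ℕ, k ∉ (s ((e - n • |x|) ⊔ 0) p q).1 := by
  obtain ⟨M, hM, hMk, hMd⟩ := exists_coatom (h := h) (κ := κ) (hκ := hκ) p q k
  obtain ⟨z, hz⟩ := H.surj M hM
  have h1 : s e ≤ s (|z| + |x|) := by
    have h2 : M ⊔ s x = ⊤ := hMd _ hx
    have h3 : ⊤ ≤ s (|z| + |x|) := by
      rw [← h2, ← hz]
      apply sup_le
      · apply H.mono
        rw [abs_of_nonneg (add_nonneg (abs_nonneg z) (abs_nonneg x))]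
        exact le_add_of_nonneg_right (abs_nonneg x)
      · apply H.mono
        rw [abs_of_nonneg (add_nonneg (abs_nonneg z) (abs_nonneg x))]
        exact le_add_of_nonneg_left (abs_nonneg z)
    exact le_top.trans h3
  obtain ⟨n, hn⟩ := (H.le_iff _ _).1 h1
  rw [abs_of_nonneg H.nonneg, abs_of_nonneg (add_nonneg (abs_nonneg z) (abs_nonneg x)), nsmul_add] at hn
  refine ⟨n, fun hk => hMk ?_⟩
  have h2 : s ((e - n • |x|) ⊔ 0) ≤ s z := by
    rw [H.le_iff]
    refine ⟨n, ?_⟩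
    rw [abs_of_nonneg le_sup_right]
    apply sup_le
    · rw [sub_le_iff_le_add]
      exact hn
    · exact nsmul_nonneg (abs_nonneg z) n
  rw [hz] at h2
  exact (h2 p q).1 hk

lemma RepOf.maxI (H : RepOf s κ hκ h e) (p q : P) (k : ℕ) : MaxI e (fun x => k ∉ (s x p q).1) where
  zero := by rw [H.zero]; exact Set.notMem_empty k
  solid := fun x y hxy hx hy => hx ((H.mono hxy p q).1 hy)
  add := fun x y hx hy hxy => by
    rcases (H.add x y p q).1 hxy with h1 | h1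
    · exact hx h1
    · exact hy h1
  prime := fun x => by
    by_contra hcon
    push Not at hcon
    have h1 := H.disj (x := x ⊔ 0) (y := (-x) ⊔ 0) le_sup_right le_sup_right (pos_inf_neg x)
    have h2 : k ∈ ((s (x ⊔ 0) ⊓ s ((-x) ⊔ 0)) p q).1 := ⟨by simpa using hcon.1, by simpa using hcon.2⟩
    rw [h1] at h2
    exact h2
  unit := by
    rw [H.top]
    simp
  max := fun x hx => H.max p q k x (by simpa using hx)

/-- the data attached to an index -/
lemma RepOf.exists_data (H : RepOf s κ hκ h e) (p : P) :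
    ∃ (f : G) (S : Set P) (τ : ℕ → ℕ → Pt), 0 ≤ f ∧
      (∀ q, s f p q = ((Set.univ : Set ℕ), 1) ∧ s f q p = ((Set.univ : Set ℕ), 1)) ∧ #S ≤ κ ∧
      ∀ q ∉ S, ∀ m n : ℕ, s ((n • f - m • e) ⊔ 0) p q = τ m n ∧
        s ((n • f - m • e) ⊔ 0) q p = hs h (τ m n) := by
  obtain ⟨D, hD, hD1⟩ := exists_D (h := h) (κ := κ) (hκ := hκ) p
  obtain ⟨f, hf⟩ := H.surj D hD
  choose S hS using fun mn : ℕ × ℕ => (H.mem ((mn.2 • |f| - mn.1 • e) ⊔ 0)).2.2
  choose x hx using fun mn : ℕ × ℕ => (hS mn).2.1 p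
  refine ⟨|f|, ⋃ mn, S mn, fun m n => x (m, n), abs_nonneg f, ?_, ?_, ?_⟩
  · rw [H.abs, hf]
    exact hD1
  · have h1 : (⋃ mn, S mn) = ⋃ mn : ULift.{u} (ℕ × ℕ), S mn.down := by
      ext r
      simp only [Set.mem_iUnion]
      constructor
      · rintro ⟨mn, hmn⟩
        exact ⟨ULift.up mn, hmn⟩
      · rintro ⟨mn, hmn⟩
        exact ⟨mn.down, hmn⟩
    rw [h1]
    refine (mk_iUnion_le _).trans ?_
    calc #(ULift.{u} (ℕ × ℕ)) * ⨆ mn : ULift.{u} (ℕ × ℕ), #(S mn.down) ≤ κ * κ := by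
          gcongr
          · exact (mk_le_aleph0).trans hκ
          · exact ciSup_le' fun mn => (hS mn.down).1
      _ = κ := mul_eq_self hκ
  · intro q hq m n
    exact hx (m, n) q (fun hh => hq (Set.mem_iUnion.2 ⟨(m, n), hh⟩))

/-- the values of `(n f - m e)⁺` are finite -/
lemma RepOf.fin (H : RepOf s κ hκ h e) {f : G} (hf : 0 ≤ f) {p q : P}
    (hfpq : s f p q = ((Set.univ : Set ℕ), 1)) (m n : ℕ) :
    ((s ((n • f - (m + 1) • e) ⊔ 0)) p q).1.Finite := by
  set w := (n • f - (m + 1) • e) ⊔ 0 with hw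
  set w' := ((m + 1) • e - n • f) ⊔ 0 with hw'
  apply ((H.mem w).1 p q).1
  have hme : 0 ≤ (m + 1) • e := nsmul_nonneg H.nonneg _
  have hnf : 0 ≤ n • f := nsmul_nonneg hf _
  have h1 : (s w p q).2 ≤ 1 := by
    have h2 : s w ≤ s f := by
      rw [H.le_iff]
      refine ⟨n, ?_⟩
      rw [abs_of_nonneg (le_sup_right : (0 : G) ≤ w), abs_of_nonneg hf]
      exact sup_le (sub_le_self _ hme) hnf
    have h3 := (h2 p q).2
    rw [hfpq] at h3
    exact h3
  have h2 : (1 : Fin 3) ⊔ (s w' p q).2 = 2 := by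
    have h4 : s e ≤ s f ⊔ s w' := by
      have h5 : s e ≤ s (n • f + w') := by
        apply H.mono
        rw [abs_of_nonneg H.nonneg, abs_of_nonneg (add_nonneg hnf le_sup_right)]
        calc e ≤ (m + 1) • e := by
              rw [succ_nsmul]
              exact le_add_of_nonneg_left (nsmul_nonneg H.nonneg m)
          _ = n • f + ((m + 1) • e - n • f) := by abel
          _ ≤ _ := add_le_add le_rfl le_sup_left
      refine h5.trans ((H.add _ _).trans ?_)
      exact sup_le_sup (H.nsmul n f) le_rfl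
    rw [H.top] at h4
    have h6 := (h4 p q).2
    simp only [Pi.sup_apply] at h6
    rw [hfpq] at h6
    exact le_antisymm (Fin.le_last _) h6
  have h3 : (s w p q).2 ⊓ (s w' p q).2 = 0 := by
    have h7 := H.disj (x := w) (y := w') le_sup_right le_sup_right (pos_inf_neg' _ _)
    have h8 := congrFun (congrFun h7 p) q
    exact congrArg Prod.snd h8
  exact snd_eq_zero_of h1 h2 h3

/-- the contradiction -/
theorem no_rep (hc : continuum.{u} ≤ κ) (hP : succ κ < #P)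
    (hfix : {k : ℕ | h k = k}.Infinite) (b : ℕ → ℕ) (hb : Function.Injective b)
    (hbh : ∀ i, h (b i) = b (i + 1)) (H : RepOf s κ hκ h e) : False := by
  choose f S τ hf0 hf1 hS hτ using H.exists_data
  obtain ⟨p, q, hqp, hpq, ht⟩ := pigeon hκ hc hP S hS (fun p m n => (τ p m n).1)
  have htau : ∀ m n, (τ p m n).1 = (τ q m n).1 := fun m n => congrFun (congrFun ht m) n
  have hI := fun k => H.maxI p q k
  -- values at `(p, q)`
  have hvp : ∀ k m n, LeI (fun x => k ∉ (s x p q).1) (n • f p) (m • e) ↔ k ∉ (τ p m n).1 := by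
    intro k m n
    have := (hτ p q hqp m n).1
    simp only [LeI, this]
  have hvq : ∀ k m n, LeI (fun x => k ∉ (s x p q).1) (n • f q) (m • e) ↔ h k ∉ (τ p m n).1 := by
    intro k m n
    have := (hτ q p hpq m n).2
    simp only [LeI, this, htau]
    rfl
  have hfp : s (f p) p q = ((Set.univ : Set ℕ), 1) := (hf1 p q).1
  have hfq : s (f q) p q = ((Set.univ : Set ℕ), 1) := (hf1 q p).2
  have hbound : ∀ x : G, ∃ n : ℕ, x ≤ n • e := H.unit
  -- fixed points
  have hF1 : (s ((f p - f q) ⊔ 0) p q).1.Finite := by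
    apply ((H.mem _).1 p q).1
    by_contra hne
    have h1 := ((H.mem ((f p - f q) ⊔ 0)).1 p q).2 hne
    apply hfix
    refine h1.subset ?_
    intro k hk
    have hk' : h k = k := hk
    show k ∉ (s ((f p - f q) ⊔ 0) p q).1
    refine compare (hI k) H.nonneg (hf0 p) (hf0 q) (hbound _) ?_
    intro m n hmn
    rw [hvq, hk'] at hmn
    rw [hvp]
    exact hmn
  have hF2 : (s ((f q - f p) ⊔ 0) p q).1.Finite := by
    apply ((H.mem _).1 p q).1
    by_contra hne
    have h1 := ((H.mem ((f q - f p) ⊔ 0)).1 p q).2 hne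
    apply hfix
    refine h1.subset ?_
    intro k hk
    have hk' : h k = k := hk
    show k ∉ (s ((f q - f p) ⊔ 0) p q).1
    refine compare (hI k) H.nonneg (hf0 q) (hf0 p) (hbound _) ?_
    intro m n hmn
    rw [hvp] at hmn
    rw [hvq, hk']
    exact hmn
  -- away from a finite set
  have hstep : ∀ k, k ∉ (s ((f p - f q) ⊔ 0) p q).1 ∪ (s ((f q - f p) ⊔ 0) p q).1 →
      ∀ m n, (k ∉ (τ p m n).1 ↔ h k ∉ (τ p m n).1) := by
    intro k hk m n
    have hk1 : LeI (fun x => k ∉ (s x p q).1) (f p) (f q) := fun hh => hk (Or.inl hh)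
    have hk2 : LeI (fun x => k ∉ (s x p q).1) (f q) (f p) := fun hh => hk (Or.inr hh)
    rw [← hvp, ← hvq]
    constructor
    · intro h1
      exact (hk2.nsmul (hI k) n).trans (hI k) h1
    · intro h1
      exact (hk1.nsmul (hI k) n).trans (hI k) h1
  obtain ⟨i0, hi0⟩ : ∃ i0, ∀ i, i0 ≤ i →
      b i ∉ (s ((f p - f q) ⊔ 0) p q).1 ∪ (s ((f q - f p) ⊔ 0) p q).1 := by
    have hfin := ((hF1.union hF2).preimage (f := b) hb.injOn)
    obtain ⟨N, hN⟩ := hfin.bddAbove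
    refine ⟨N + 1, fun i hi hmem => ?_⟩
    have := hN (show i ∈ b ⁻¹' _ from hmem)
    omega
  have hconst : ∀ m n j, (b i0 ∉ (τ p m n).1 ↔ b (i0 + j) ∉ (τ p m n).1) := by
    intro m n j
    induction j with
    | zero => simp
    | succ j ih =>
      rw [ih, hstep _ (hi0 (i0 + j) (Nat.le_add_right _ _)) m n, hbh]
      rfl
  have hnot : ∀ n, b i0 ∉ (τ p 1 n).1 := by
    intro n
    have hfinτ : (τ p 1 n).1.Finite := by
      have h1 := H.fin (hf0 p) hfp 0 n
      rw [(hτ p q hqp (0 + 1) n).1] at h1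
      exact h1
    obtain ⟨N, hN⟩ := (hfinτ.preimage (f := b) hb.injOn).bddAbove
    rw [hconst 1 n (N + 1)]
    intro hmem
    have := hN (show i0 + (N + 1) ∈ b ⁻¹' _ from hmem)
    omega
  -- but `f p` is not infinitely small
  obtain ⟨n, hn⟩ := exists_large (hI (b i0)) H.nonneg (hf0 p) (by rw [hfp]; simp)
  rw [hvp] at hn
  exact hn (hnot n)

theorem sigma_of_iso' {L : Type u} [Lattice L] (iso : L ≃o Idc G) :
    ∃ σ : G → L, Function.Surjective σ ∧ ∀ x y, σ x ≤ σ y ↔ ∃ n : ℕ, |x| ≤ n • |y| := by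
  refine ⟨fun x => iso.symm (prinIdc x), ?_, ?_⟩
  · intro l
    obtain ⟨y, hy⟩ := exists_prinIdc (iso l)
    exact ⟨y, by simp [← hy]⟩
  · intro x y
    rw [OrderIso.le_iff_le, prinIdc_le_iff]

end

theorem not_inAb {P : Type u} {κ : Cardinal.{u}} {hκ : ℵ₀ ≤ κ} {h : ℕ ≃ ℕ} (hc : continuum.{u} ≤ κ)
    (hP : succ κ < #P) (hfix : {k : ℕ | h k = k}.Infinite) (b : ℕ → ℕ) (hb : Function.Injective b)
    (hbh : ∀ i, h (b i) = b (i + 1)) : ¬ InAb.{u, v} (Gam h κ hκ P) := by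
  rintro ⟨G, i1, i2, i3, ⟨iso⟩⟩
  obtain ⟨σ, hσ, hle⟩ := sigma_of_iso' iso
  obtain ⟨y, hy⟩ := hσ ⟨⊤, top_mem⟩
  have hunit : ∀ x : G, ∃ n : ℕ, x ≤ n • |y| := by
    intro x
    have h1 : σ x ≤ σ y := by
      rw [hy]
      exact (le_top : (σ x).1 ≤ ⊤)
    obtain ⟨n, hn⟩ := (hle x y).1 h1
    exact ⟨n, (le_abs_self x).trans hn⟩
  have H : RepOf (fun x => (σ x).1) κ hκ h |y| := by
    refine ⟨fun x => (σ x).2, fun d hd => ?_, fun x y => ?_, abs_nonneg y, hunit⟩
    · obtain ⟨x, hx⟩ := hσ ⟨d, hd⟩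
      exact ⟨x, congrArg Subtype.val hx⟩
    · exact hle x y
  exact no_rep hc hP hfix b hb hbh H

end Pool.Agent.H41.LX
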