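import Pool.Agent.H41.LX.Rep3
import Pool.Agent.H41.LX.LS
import Pool.Agent.H47.LInf.Untwist

/-!
# The class of lattices `Id_c V`, `V` an Archimedean real vector lattice with order-unit: the twisted
lattices over ordinal-like index sets belong to it, and it is closed under suitable substructures
-/

set_option autoImplicit false

namespace Pool.Agent.H41.LX

open Cardinal Filter Topology Pool.Agent.H47.LInf

universe u

theorem inRV_untwisted (κ : Cardinal.{u}) (hκ : ℵ₀ ≤ κ) (P : Type u) :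
    InRV (Gam (Equiv.refl ℕ) κ hκ P) :=
  ⟨GT κ hκ P, inferInstance, inferInstance, inferInstance, inferInstance, GT_smul_nonneg,
    GT_arch κ hκ P, GT_unit κ hκ P, iso_of_sigma sigma sigma_surj sigma_le_iff⟩

lemma InRV.of_iso {L L' : Type u} [Lattice L] [Lattice L'] (hL : InRV L) (e : L' ≃o L) :
    InRV L' := by
  obtain ⟨G, i1, i2, i3, i4, h0, h1, h2, ⟨f⟩⟩ := hL
  exact ⟨G, i1, i2, i3, i4, h0, h1, h2, ⟨e.trans f⟩⟩

lemma InRV.inCu {L : Type u} [Lattice L] (hL : InRV L) : InCu L := by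
  obtain ⟨G, i1, i2, i3, i4, h0, h1, h2, h3⟩ := hL
  exact ⟨G, i1, i2, i3, h1, h2, h3⟩

/-- over an ordinal-like index set of size just above `κ` the twisted lattice is untwisted -/
theorem inRV_twisted {P : Type u} [LinearOrder P] {κ : Cardinal.{u}} (hκ : ℵ₀ ≤ κ)
    (h1 : ∀ p : P, #(Set.Iic p) ≤ κ) (h2 : κ < #P) (h : ℕ ≃ ℕ) : InRV (Gam h κ hκ P) := by
  apply (inRV_untwisted κ hκ P).of_iso
  refine
    { toFun := fun d => ⟨tw h.symm d, tw_mem hκ h1 h2 h h.symm (Equiv.refl ℕ) (fun x => hs_symm_hs h x) d.2 rfl⟩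
      invFun := fun d => ⟨tw h d, tw_mem' hκ h1 h2 h d.2⟩
      left_inv := ?_
      right_inv := ?_
      map_rel_iff' := ?_ }
  · intro d
    apply Subtype.ext
    exact tw_tw' h d.1
  · intro d
    apply Subtype.ext
    exact tw_tw h d.1
  · intro d d'
    constructor
    · intro hle
      have := tw_mono h hle
      simp only [Equiv.coe_fn_mk] at this
      have h3 : tw h (tw h.symm d.1) ≤ tw h (tw h.symm d'.1) := this
      rw [tw_tw', tw_tw'] at h3
      exact h3
    · intro hle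
      exact tw_mono h.symm hle

/-- vector lattice terms with a constant for the order-unit -/
inductive LT : Type
  | var (n : ℕ) : LT
  | unit : LT
  | add (s t : LT) : LT
  | smul (r : ℝ) (t : LT) : LT
  | sup (s t : LT) : LT
  | inf (s t : LT) : LT

section
variable {V : Type u} [AddCommGroup V] [Lattice V] [Module ℝ V]

/-- the value of a term -/
def LT.eval (e : V) (w : ℕ → V) : LT → V
  | .var n => w n
  | .unit => e
  | .add s t => s.eval e w + t.eval e w
  | .smul r t => r • t.eval e w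
  | .sup s t => s.eval e w ⊔ t.eval e w
  | .inf s t => s.eval e w ⊓ t.eval e w

/-- renaming of the variables -/
def LT.map (f : ℕ → ℕ) : LT → LT
  | .var n => .var (f n)
  | .unit => .unit
  | .add s t => .add (s.map f) (t.map f)
  | .smul r t => .smul r (t.map f)
  | .sup s t => .sup (s.map f) (t.map f)
  | .inf s t => .inf (s.map f) (t.map f)

lemma LT.eval_map (e : V) (w : ℕ → V) (f : ℕ → ℕ) (t : LT) :
    (t.map f).eval e w = t.eval e (w ∘ f) := by
  induction t with
  | var n => rfl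
  | unit => rfl
  | add s t hs ht => simp only [LT.map, LT.eval, hs, ht]
  | smul r t ht => simp only [LT.map, LT.eval, ht]
  | sup s t hs ht => simp only [LT.map, LT.eval, hs, ht]
  | inf s t hs ht => simp only [LT.map, LT.eval, hs, ht]

end

/-- two sequences interleaved -/
lemma exists_interleave {L : Type u} (X : Set L) (w w' : ℕ → L) (hw : ∀ n, w n ∈ X)
    (hw' : ∀ n, w' n ∈ X) : ∃ w'' : ℕ → L, (∀ n, w'' n ∈ X) ∧ (∀ n, w'' (2 * n) = w n) ∧
      ∀ n, w'' (2 * n + 1) = w' n := by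
  refine ⟨fun n => if n % 2 = 0 then w (n / 2) else w' (n / 2), fun n => ?_, fun n => ?_,
    fun n => ?_⟩
  · simp only
    split_ifs
    · exact hw _
    · exact hw' _
  · simp only
    rw [if_pos (by omega)]
    congr 1
    omega
  · simp only
    rw [if_neg (by omega)]
    congr 1
    omega

section
variable {V : Type u} [AddCommGroup V] [Lattice V] [Module ℝ V]

/-- elements which are values of terms at elements of `X` -/
def TV {L : Type u} (e : V) (g : L → V) (X : Set L) (y : V) : Prop :=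
  ∃ (t : LT) (w : ℕ → L), (∀ n, w n ∈ X) ∧ y = t.eval e (g ∘ w)

lemma TV.op {L : Type u} {e : V} {g : L → V} {X : Set L} {y z : V} (hy : TV e g X y)
    (hz : TV e g X z) (c : LT → LT → LT) (f : V → V → V)
    (hc : ∀ s t w, (c s t).eval e w = f (s.eval e w) (t.eval e w)) : TV e g X (f y z) := by
  obtain ⟨s, w, hw, rfl⟩ := hy
  obtain ⟨t, w', hw', rfl⟩ := hz
  obtain ⟨w'', h1, h2, h3⟩ := exists_interleave X w w' hw hw'
  refine ⟨c (s.map fun n => 2 * n) (t.map fun n => 2 * n + 1), w'', h1, ?_⟩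
  rw [hc, LT.eval_map, LT.eval_map]
  have e1 : (g ∘ w'') ∘ (fun n => 2 * n) = g ∘ w := by
    funext n
    simp only [Function.comp_apply, h2]
  have e2 : (g ∘ w'') ∘ (fun n => 2 * n + 1) = g ∘ w' := by
    funext n
    simp only [Function.comp_apply, h3]
  rw [e1, e2]

/-- the vector sublattice -/
def VX {L : Type u} (e : V) (g : L → V) (X : Set L) (hX : X.Nonempty) : Submodule ℝ V where
  carrier := {y | TV e g X y}
  zero_mem' := by
    obtain ⟨x, hx⟩ := hX
    exact ⟨.smul 0 .unit, fun _ => x, fun _ => hx, by simp [LT.eval]⟩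
  add_mem' := by
    intro a b ha hb
    exact ha.op hb LT.add (fun a b => a + b) fun s t w => rfl
  smul_mem' := by
    intro r a ha
    obtain ⟨t, w, hw, rfl⟩ := ha
    exact ⟨.smul r t, w, hw, rfl⟩

end

theorem inRV_ops (L : Type u) [Lattice L] (hL : InRV L) :
    ∃ F : (j : ULift.{u} LT) → (ULift.{u} ℕ → L) → L, ∀ X : Sublattice L,
      (X : Set L).Nonempty → Closed F (X : Set L) → InRV X := by
  obtain ⟨V, i1, i2, i3, i4, h0, h1, ⟨e, he, hunit⟩, ⟨iso⟩⟩ := hL
  obtain ⟨σ, hσ, hle⟩ := sigma_of_iso iso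
  choose g hg using hσ
  refine ⟨fun j w => σ (j.down.eval e fun n => g (w ⟨n⟩)), fun X hX hc => ?_⟩
  have hsup : ∀ {a b : V}, a ∈ VX e g (X : Set L) hX → b ∈ VX e g (X : Set L) hX →
      a ⊔ b ∈ VX e g (X : Set L) hX := fun ha hb =>
    TV.op ha hb LT.sup (fun a b => a ⊔ b) fun s t w => rfl
  have hinf : ∀ {a b : V}, a ∈ VX e g (X : Set L) hX → b ∈ VX e g (X : Set L) hX →
      a ⊓ b ∈ VX e g (X : Set L) hX := fun ha hb =>
    TV.op ha hb LT.inf (fun a b => a ⊓ b) fun s t w => rfl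
  have hmem : ∀ y ∈ VX e g (X : Set L) hX, σ y ∈ X := by
    rintro y ⟨t, w, hw, rfl⟩
    exact hc ⟨t⟩ (fun n => w n.down) fun n => hw n.down
  obtain ⟨x0, hx0⟩ := id hX
  let i5 : Lattice (VX e g (X : Set L) hX) := Subtype.lattice (fun _ _ ha hb => hsup ha hb) (fun _ _ ha hb => hinf ha hb)
  have i6 : IsOrderedAddMonoid (VX e g (X : Set L) hX) :=
    { add_le_add_left := fun a b hab c => add_le_add_left (α := V) hab c }
  refine ⟨VX e g (X : Set L) hX, inferInstance, i5, i6, inferInstance, ?_, ?_, ?_, ?_⟩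
  · intro c x hc hx
    exact h0 c x hc hx
  · intro x y hxy
    exact h1 (x : V) y fun n hn => hxy n hn
  · refine ⟨⟨e, ⟨.unit, fun _ => x0, fun _ => hx0, rfl⟩⟩, he, fun x => ?_⟩
    obtain ⟨n, hn, hx⟩ := hunit x
    exact ⟨n, hn, hx⟩
  · refine iso_of_sigma (fun y => ⟨σ y, hmem _ y.2⟩) ?_ ?_
    · rintro ⟨x, hx⟩
      refine ⟨⟨g x, ⟨.var 0, fun _ => x, fun _ => hx, rfl⟩⟩, ?_⟩
      exact Subtype.ext (hg x)
    · intro x y
      exact hle x y

end Pool.Agent.H41.LX
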