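import Pool.Agent.H41.LX.Emb
import Pool.Agent.H41.LX.RV
import Pool.Agent.H41.LX.Non

/-!
# Inseparability of `Id_c` of unital Archimedean real vector lattices and `Id_c` of Abelian `ℓ`-groups
-/

set_option autoImplicit false

namespace Pool.Agent.H41.LX

open Pool.Agent.H47.LInf Cardinal Order

universe u v

/-- facts about the index set of size `μ⁺` -/
lemma exists_index {μ : Cardinal.{u}} (hμ : ℵ₀ ≤ μ) : ∃ (P : Type u) (_ : LinearOrder P),
    (∀ p : P, #(Set.Iic p) ≤ μ) ∧ #P = succ μ := by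
  have hPcard : #((succ μ).ord.ToType) = succ μ := mk_ord_toType _
  refine ⟨(succ μ).ord.ToType, inferInstance, fun p => ?_, hPcard⟩
  have h1 : #(Set.Iio p) < #((succ μ).ord.ToType) :=
    mk_Iio_lt p (by rw [hPcard]; exact (Ordinal.type_toType _).symm)
  have h2 : #(Set.Iio p) ≤ μ := lt_succ_iff.1 (h1.trans_eq hPcard)
  have h3 : (Set.Iic p) = Set.Iio p ∪ {p} := by
    ext q
    simp [le_iff_lt_or_eq]
  rw [h3]
  apply mk_union_le_of hμ h2
  exact ((Set.toFinite ({p} : Set ((succ μ).ord.ToType))).lt_aleph0.le).trans hμ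

theorem exists_pair (κ : Cardinal.{u}) : ∃ (L L' : Type u) (_ : Lattice L) (_ : Lattice L')
    (f : L → L'), InRV L ∧ ¬ InAb.{u, v} L' ∧ Elem κ f ∧ Function.Injective f ∧
      (∀ a b, f (a ⊔ b) = f a ⊔ f b) ∧ ∀ a b, f (a ⊓ b) = f a ⊓ f b := by
  obtain ⟨h, hfix, b, hb, hbh⟩ := exists_perm
  set μ : Cardinal.{u} := max κ continuum with hμdef
  have hc : continuum.{u} ≤ μ := le_max_right _ _
  have hμ : ℵ₀ ≤ μ := aleph0_le_continuum.trans hc
  obtain ⟨P, iP, hIic, hPcard⟩ := exists_index hμ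
  set P' : Type u := (succ (succ μ)).out with hP'
  have hP'card : #P' = succ (succ μ) := mk_out _
  have hPlt : μ < #P := by rw [hPcard]; exact lt_succ _
  have hP'lt : succ μ < #P' := by rw [hP'card]; exact lt_succ _
  have hP'lt' : μ < #P' := (lt_succ μ).trans hP'lt
  obtain ⟨ι⟩ : Nonempty (P ↪ P') := by
    rw [← Cardinal.le_def, hPcard]
    exact hP'lt.le
  obtain ⟨f, hf⟩ := exists_emb (h := h) (hμ := hμ) hPlt hP'lt' ι.injective
  exact ⟨Gam h μ hμ P, Gam h μ hμ P', inferInstance, inferInstance, f,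
    inRV_twisted hμ hIic hPlt h, not_inAb hc hP'lt hfix b hb hbh, hf.mono (le_max_left _ _),
    hf.hom hμ⟩

theorem not_projective {σ : Voc.{u}} (ψ : Fm σ PEmpty.{u + 1})
    (hψ : ∀ (L : Type u) [Lattice L], InRV L → ¬ IsReduct L ψ) :
    ∃ (L' : Type u) (_ : Lattice L'), ¬ InAb.{u, v} L' ∧ ¬ IsReduct L' ψ := by
  obtain ⟨h, hfix, b, hb, hbh⟩ := exists_perm
  set κ : Cardinal.{u} := max ℵ₀ (max ψ.bd (⨆ f, #(σ.fa f))) with hκdef
  have hκ : ℵ₀ ≤ κ := le_max_left _ _
  have hbd : ψ.bd ≤ κ := (le_max_left _ _).trans (le_max_right _ _)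
  have hfa : ∀ f, #(σ.fa f) ≤ κ := fun f =>
    (le_ciSup (f := fun f => #(σ.fa f)) (Cardinal.bddAbove_of_small) f).trans
      ((le_max_right _ _).trans (le_max_right _ _))
  obtain ⟨J, A, hA, hJ⟩ := skolem hκ ψ hbd (by rw [mk_pempty]; exact zero_le)
  set κ' : Cardinal.{u} := max κ (max #J (max #σ.F #(ULift.{u} LT))) with hκ'
  set μ : Cardinal.{u} := 2 ^ κ' with hμdef
  have hκκ' : κ ≤ κ' := le_max_left _ _
  have hκ'μ : κ' ≤ μ := (cantor κ').le
  have hκμ : κ ≤ μ := hκκ'.trans hκ'μ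
  have hJμ : #J ≤ μ := ((le_max_left _ _).trans (le_max_right _ _)).trans hκ'μ
  have hFμ : #σ.F ≤ μ := (((le_max_left _ _).trans (le_max_right _ _)).trans
    (le_max_right _ _)).trans hκ'μ
  have hLTμ : #(ULift.{u} LT) ≤ μ := (((le_max_right _ _).trans (le_max_right _ _)).trans
    (le_max_right _ _)).trans hκ'μ
  have hc : continuum.{u} ≤ μ := by
    rw [← two_power_aleph0]
    exact power_le_power_left two_ne_zero (hκ.trans hκκ')
  have hμ : ℵ₀ ≤ μ := aleph0_le_continuum.trans hc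
  have hpow : μ ^ κ = μ := by
    rw [hμdef, ← power_mul, mul_eq_left (hκ.trans hκκ') hκκ' (aleph0_pos.trans_le hκ).ne']
  obtain ⟨P, iP, hIic, hPcard⟩ := exists_index hμ
  set P' : Type u := (succ (succ μ)).out with hP'
  have hP'card : #P' = succ (succ μ) := mk_out _
  have hPlt : μ < #P := by rw [hPcard]; exact lt_succ _
  have hP'lt : succ μ < #P' := by rw [hP'card]; exact lt_succ _
  have hP'lt' : μ < #P' := (lt_succ μ).trans hP'lt
  have hadd : ∀ {α β : Type u}, #α ≤ μ → #β ≤ μ → #(α ⊕ β) ≤ μ := by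
    intro α β hα hβ
    rw [mk_sum, lift_id, lift_id]
    exact (add_le_add hα hβ).trans (add_eq_self hμ).le
  have hBool : #(ULift.{u} Bool) ≤ ℵ₀ := mk_le_aleph0
  have hNat : #(ULift.{u} ℕ) ≤ ℵ₀ := mk_le_aleph0
  refine ⟨Gam h μ hμ P', inferInstance, not_inAb hc hP'lt hfix b hb hbh, ?_⟩
  rintro ⟨M, hM⟩
  have hne : Nonempty (Gam h μ hμ P') := ⟨⟨⊥, bot_mem⟩⟩
  obtain ⟨F', hF'⟩ := hJ (Gam h μ hμ P') M
  obtain ⟨F, hF⟩ := inRV_ops (Gam h μ hμ P) (inRV_twisted hμ hIic hPlt h)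
  -- the families
  let A₁ : ULift.{u} LT ⊕ ULift.{u} Bool → Type u :=
    Sum.elim (fun _ => ULift.{u} ℕ) fun _ => ULift.{u} Bool
  let F₁ : (j : ULift.{u} LT ⊕ ULift.{u} Bool) → (A₁ j → Gam h μ hμ P) → Gam h μ hμ P :=
    fun j => match j with
    | .inl j => F j
    | .inr b => fun a => if b.down then a ⟨true⟩ ⊔ a ⟨false⟩ else a ⟨true⟩ ⊓ a ⟨false⟩
  let A₂ : J ⊕ (σ.F ⊕ ULift.{u} Bool) → Type u :=
    Sum.elim A (Sum.elim σ.fa fun _ => ULift.{u} Bool)
  let F₂ : (j : J ⊕ (σ.F ⊕ ULift.{u} Bool)) → (A₂ j → Gam h μ hμ P') → Gam h μ hμ P' :=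
    fun j => match j with
    | .inl j => F' j
    | .inr (.inl f) => M.op f
    | .inr (.inr b) => fun a => if b.down then a ⟨true⟩ ⊔ a ⟨false⟩ else a ⟨true⟩ ⊓ a ⟨false⟩
  have hA₁ : ∀ j, #(A₁ j) ≤ κ := by
    rintro (j | j)
    · exact hNat.trans hκ
    · exact hBool.trans hκ
  have hA₂ : ∀ j, #(A₂ j) ≤ κ := by
    rintro (j | j | j)
    · exact hA j
    · exact hfa j
    · exact hBool.trans hκ
  obtain ⟨E, Z, hE, hZne, hZ, hcl₁, hcl₂⟩ := exists_closed F₁ F₂ hPlt hP'lt' hκ hpow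
    (hadd hLTμ (hBool.trans hμ)) (hadd hJμ (hadd hFμ (hBool.trans hμ))) hA₁ hA₂
  -- the two sublattices
  let X : Sublattice (Gam h μ hμ P) :=
    { carrier := {d | ∃ d', (d, d') ∈ Z}
      supClosed' := by
        intro a ha b hb
        have h1 := hcl₁ (Sum.inr ⟨true⟩) (fun i : ULift.{u} Bool => if i.down then a else b) (by
          rintro ⟨i⟩
          cases i
          · exact hb
          · exact ha)
        exact h1
      infClosed' := by
        intro a ha b hb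
        have h1 := hcl₁ (Sum.inr ⟨false⟩) (fun i : ULift.{u} Bool => if i.down then a else b) (by
          rintro ⟨i⟩
          cases i
          · exact hb
          · exact ha)
        exact h1 }
  let X' : Sublattice (Gam h μ hμ P') :=
    { carrier := {d' | ∃ d, (d, d') ∈ Z}
      supClosed' := by
        intro a ha b hb
        have h1 := hcl₂ (Sum.inr (Sum.inr ⟨true⟩)) (fun i : ULift.{u} Bool => if i.down then a else b) (by
          rintro ⟨i⟩
          cases i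
          · exact hb
          · exact ha)
        exact h1
      infClosed' := by
        intro a ha b hb
        have h1 := hcl₂ (Sum.inr (Sum.inr ⟨false⟩)) (fun i : ULift.{u} Bool => if i.down then a else b) (by
          rintro ⟨i⟩
          cases i
          · exact hb
          · exact ha)
        exact h1 }
  obtain ⟨iso⟩ := iso_of_rel hPlt hP'lt' hE hZ X X' (fun d => Iff.rfl) fun d => Iff.rfl
  have hXne : (X : Set (Gam h μ hμ P)).Nonempty := by
    obtain ⟨z, hz⟩ := hZne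
    exact ⟨z.1, z.2, hz⟩
  have hXRV : InRV X := hF X hXne fun j a ha => hcl₁ (Sum.inl j) a ha
  have hX'op : ∀ f (a : σ.fa f → Gam h μ hμ P'), (∀ i, a i ∈ X') → M.op f a ∈ X' :=
    fun f a ha => hcl₂ (Sum.inr (Sum.inl f)) a ha
  have hX'cl : Closed F' (X' : Set (Gam h μ hμ P')) := fun j a ha => hcl₂ (Sum.inl j) a ha
  refine hψ X' (hXRV.of_iso iso) ⟨M.restr X' hX'op, ?_⟩
  rw [hF' X' hX'op hX'cl]
  convert hM using 1
  funext x
  exact x.elim

end Pool.Agent.H41.LX
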